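import Mathlib

/-! Small self-avoiding networks on the square lattice. -/

set_option autoImplicit false

namespace Pool.Agent.X135.Net

abbrev Pt := ℤ × ℤ

/-- the `n`-step self-avoiding walks from the origin -/
def Walk (n : ℕ) : Set (Fin (n + 1) → Pt) :=
  {w | w 0 = 0 ∧ Function.Injective w ∧
    ∀ i : Fin n, |(w i.succ).1 - (w i.castSucc).1| + |(w i.succ).2 - (w i.castSucc).2| = 1}

/-- the self-avoiding loops with `N` steps from the origin -/
def Loop (N : ℕ) : Set (ZMod N → Pt) :=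
  {f | f 0 = 0 ∧ Function.Injective f ∧
    ∀ i : ZMod N, |(f (i + 1)).1 - (f i).1| + |(f (i + 1)).2 - (f i).2| = 1}

/-- lexicographically positive points -/
def Pos : Set Pt := {p | 0 < p.1 ∨ (p.1 = 0 ∧ 0 < p.2)}

theorem pos_add {p q : Pt} (hp : p ∈ Pos) (hq : q ∈ Pos) : p + q ∈ Pos := by
  simp only [Pos, Set.mem_ofPred_eq, Prod.fst_add, Prod.snd_add] at *
  omega

theorem pos_neg {p : Pt} (hp : p ∈ Pos) : -p ∉ Pos := by
  simp only [Pos, Set.mem_ofPred_eq, Prod.fst_neg, Prod.snd_neg] at *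
  omega

theorem zero_not_pos : (0 : Pt) ∉ Pos := by
  simp [Pos]

theorem pos_total {p : Pt} (hp : p ≠ 0) : p ∈ Pos ∨ -p ∈ Pos := by
  have h : p.1 ≠ 0 ∨ p.2 ≠ 0 := by
    by_contra h
    push Not at h
    exact hp (Prod.ext h.1 h.2)
  simp only [Pos, Set.mem_ofPred_eq, Prod.fst_neg, Prod.snd_neg]
  omega

/-- walks with all vertices but the first one positive -/
def WalkP (n : ℕ) : Set (Fin (n + 1) → Pt) := {w | w ∈ Walk n ∧ ∀ i, i ≠ 0 → w i ∈ Pos}

/-- loops with all vertices but the first one positive -/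
def LoopP (N : ℕ) : Set (ZMod N → Pt) := {f | f ∈ Loop N ∧ ∀ i, i ≠ 0 → f i ∈ Pos}

/-- pairs of walks in the positive part which meet at the origin only -/
def ForkP (n n' : ℕ) : Set ((Fin (n + 1) → Pt) × (Fin (n' + 1) → Pt)) :=
  {q | q.1 ∈ WalkP n ∧ q.2 ∈ WalkP n' ∧ Set.range q.1 ∩ Set.range q.2 = {0}}

/-! ### finiteness -/

theorem box_fin (ι : Type) [Finite ι] (R : ℤ) : {w : ι → Pt | ∀ i, |(w i).1| ≤ R ∧ |(w i).2| ≤ R}.Finite := by
  have h : (Set.Icc (-R) R ×ˢ Set.Icc (-R) R : Set Pt).Finite :=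
    (Set.finite_Icc _ _).prod (Set.finite_Icc _ _)
  refine (Set.Finite.pi' fun _ : ι => h).subset ?_
  intro w hw i
  obtain ⟨h1, h2⟩ := hw i
  exact ⟨abs_le.1 h1, abs_le.1 h2⟩

theorem walk_fin (n : ℕ) : (Walk n).Finite := by
  refine (box_fin (Fin (n + 1)) n).subset ?_
  rintro w ⟨h0, -, hs⟩
  have key : ∀ k : ℕ, ∀ hk : k < n + 1, |(w ⟨k, hk⟩).1| ≤ k ∧ |(w ⟨k, hk⟩).2| ≤ k := by
    intro k
    induction k with
    | zero =>
      intro hk
      have : w ⟨0, hk⟩ = 0 := h0
      rw [this]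
      simp
    | succ k ih =>
      intro hk
      have h1 := ih (by omega)
      have h2 := hs ⟨k, by omega⟩
      have e1 : (⟨k, by omega⟩ : Fin n).succ = (⟨k + 1, hk⟩ : Fin (n + 1)) := rfl
      have e2 : (⟨k, by omega⟩ : Fin n).castSucc = (⟨k, by omega⟩ : Fin (n + 1)) := rfl
      rw [e1, e2] at h2
      rw [abs_le, abs_le] at h1
      push_cast
      have h3 := abs_nonneg ((w ⟨k + 1, hk⟩).1 - (w ⟨k, by omega⟩).1)
      have h4 := abs_nonneg ((w ⟨k + 1, hk⟩).2 - (w ⟨k, by omega⟩).2)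
      have h5 : |(w ⟨k + 1, hk⟩).1 - (w ⟨k, by omega⟩).1| ≤ 1 := by linarith
      have h6 : |(w ⟨k + 1, hk⟩).2 - (w ⟨k, by omega⟩).2| ≤ 1 := by linarith
      rw [abs_le] at h5 h6
      rw [abs_le, abs_le]
      refine ⟨⟨?_, ?_⟩, ⟨?_, ?_⟩⟩ <;> linarith [h5.1, h5.2, h6.1, h6.2, h1.1.1, h1.1.2, h1.2.1, h1.2.2]
  intro i
  have h1 := key i.val i.isLt
  have h2 : (i.val : ℤ) ≤ n := by exact_mod_cast Nat.le_of_lt_succ i.isLt
  exact ⟨h1.1.trans h2, h1.2.trans h2⟩

theorem loop_fin (N : ℕ) [NeZero N] : (Loop N).Finite := by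
  refine (box_fin (ZMod N) N).subset ?_
  rintro f ⟨h0, -, hs⟩
  have key : ∀ k : ℕ, |(f (k : ZMod N)).1| ≤ k ∧ |(f (k : ZMod N)).2| ≤ k := by
    intro k
    induction k with
    | zero => simp [h0]
    | succ k ih =>
      have h2 := hs (k : ZMod N)
      push_cast
      rw [abs_le, abs_le] at ih
      have h3 := abs_nonneg ((f ((k : ZMod N) + 1)).1 - (f (k : ZMod N)).1)
      have h4 := abs_nonneg ((f ((k : ZMod N) + 1)).2 - (f (k : ZMod N)).2)
      have h5 : |(f ((k : ZMod N) + 1)).1 - (f (k : ZMod N)).1| ≤ 1 := by linarith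
      have h6 : |(f ((k : ZMod N) + 1)).2 - (f (k : ZMod N)).2| ≤ 1 := by linarith
      rw [abs_le] at h5 h6
      rw [abs_le, abs_le]
      refine ⟨⟨?_, ?_⟩, ⟨?_, ?_⟩⟩ <;> linarith [h5.1, h5.2, h6.1, h6.2, ih.1.1, ih.1.2, ih.2.1, ih.2.2]
  intro i
  have h1 := key i.val
  rw [ZMod.natCast_zmod_val] at h1
  have h2 : (i.val : ℤ) ≤ N := by exact_mod_cast (ZMod.val_lt i).le
  exact ⟨h1.1.trans h2, h1.2.trans h2⟩

theorem walkP_fin (n : ℕ) : (WalkP n).Finite := (walk_fin n).subset fun _ h => h.1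

theorem loopP_fin (N : ℕ) [NeZero N] : (LoopP N).Finite := (loop_fin N).subset fun _ h => h.1

theorem forkP_fin (n n' : ℕ) : (ForkP n n').Finite :=
  ((walkP_fin n).prod (walkP_fin n')).subset fun _ h => ⟨h.1, h.2.1⟩

/-! ### rooting a loop at its smallest vertex -/

theorem exists_min {N : ℕ} [NeZero N] (f : ZMod N → Pt) (hf : Function.Injective f) :
    ∃ t : ZMod N, ∀ i, i ≠ t → f i - f t ∈ Pos := by
  have h1 : ∀ s : Finset (ZMod N), s.Nonempty → ∃ t ∈ s, ∀ i ∈ s, i ≠ t → f i - f t ∈ Pos := by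
    intro s hs
    induction hs using Finset.Nonempty.cons_induction with
    | singleton a =>
      refine ⟨a, by simp, fun i hi hia => ?_⟩
      simp only [Finset.mem_singleton] at hi
      exact absurd hi hia
    | cons a s ha hs ih =>
      obtain ⟨t, ht, h⟩ := ih
      have hne : f a - f t ≠ 0 := fun h0 => ha (by
        have : a = t := hf (sub_eq_zero.1 h0)
        rwa [this])
      rcases pos_total hne with hp | hp
      · refine ⟨t, by simp [ht], fun i hi hit => ?_⟩
        rcases Finset.mem_cons.1 hi with rfl | hi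
        · exact hp
        · exact h i hi hit
      · rw [neg_sub] at hp
        refine ⟨a, by simp, fun i hi hia => ?_⟩
        rcases Finset.mem_cons.1 hi with rfl | hi
        · exact absurd rfl hia
        · by_cases hit : i = t
          · rw [hit]; exact hp
          · have := pos_add (h i hi hit) hp
            rwa [sub_add_sub_cancel] at this
  obtain ⟨t, -, h⟩ := h1 Finset.univ Finset.univ_nonempty
  exact ⟨t, fun i hi => h i (Finset.mem_univ i) hi⟩

open Classical in
/-- the index of the smallest vertex -/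
noncomputable def root {N : ℕ} [NeZero N] (f : ZMod N → Pt) : ZMod N :=
  if h : ∃ t : ZMod N, ∀ i, i ≠ t → f i - f t ∈ Pos then h.choose else 0

theorem root_spec {N : ℕ} [NeZero N] {f : ZMod N → Pt} (hf : Function.Injective f) :
    ∀ i, i ≠ root f → f i - f (root f) ∈ Pos := by
  have h := exists_min f hf
  unfold root
  rw [dif_pos h]
  exact h.choose_spec

theorem loop_le {N : ℕ} [NeZero N] : (Loop N).ncard ≤ N * (LoopP N).ncard := by
  have hcard : ((LoopP N) ×ˢ (Set.univ : Set (ZMod N))).ncard = N * (LoopP N).ncard := by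
    rw [Set.ncard_prod, Set.ncard_univ, Nat.card_eq_fintype_card, ZMod.card, Nat.mul_comm]
  rw [← hcard]
  refine Set.ncard_le_ncard_of_injOn
    (fun f => ((fun i => f (i + root f) - f (root f)), root f)) ?_ ?_
    ((loopP_fin N).prod Set.finite_univ)
  · rintro f ⟨h0, hi, hs⟩
    refine ⟨⟨⟨by simp, ?_, ?_⟩, ?_⟩, Set.mem_univ _⟩
    · intro i j hij
      simp only [sub_left_inj] at hij
      exact add_right_cancel (hi hij)
    · intro i
      have := hs (i + root f)
      simp only [Prod.fst_sub, Prod.snd_sub, sub_sub_sub_cancel_right]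
      rwa [add_right_comm] at this
    · intro i hi0
      exact root_spec hi _ (fun h => hi0 (by simpa using h))
  · rintro f ⟨h0, -⟩ g ⟨h0', -⟩ hfg
    simp only [Prod.mk.injEq] at hfg
    obtain ⟨h1, h2⟩ := hfg
    have key : ∀ i, f i - f (root f) = g i - g (root f) := by
      intro i
      have := congrFun h1 (i - root f)
      simp only [sub_add_cancel] at this
      rw [this, ← h2]
      simp
    have h3 := key 0
    rw [h0, h0'] at h3
    have h4 : f (root f) = g (root f) := by simpa using h3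
    funext i
    have := key i
    rw [h4] at this
    exact sub_left_inj.1 this

/-! ### cutting a loop -/

theorem fork_le {N n n' : ℕ} [NeZero N] (h1 : n + n' + 1 ≤ N) (h2 : N ≤ n + n' + 2) :
    (LoopP N).ncard ≤ 9 * (ForkP n n').ncard := by
  classical
  have hcard : ((ForkP n n') ×ˢ (Set.Icc (-1 : ℤ) 1 ×ˢ Set.Icc (-1 : ℤ) 1)).ncard =
      9 * (ForkP n n').ncard := by
    rw [Set.ncard_prod, Set.ncard_prod]
    have : (Set.Icc (-1 : ℤ) 1).ncard = 3 := by
      rw [← Finset.coe_Icc, Set.ncard_coe_finset]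
      rfl
    rw [this, Nat.mul_comm]
  rw [← hcard]
  have hval : ∀ k : ℕ, k < N → ((k : ZMod N)).val = k := fun k hk => ZMod.val_natCast_of_lt hk
  have hNe : ∀ k : ℕ, 0 < k → k < N → (k : ZMod N) ≠ 0 := by
    intro k hk hkN h
    have := hval k hkN
    rw [h, ZMod.val_zero] at this
    omega
  refine Set.ncard_le_ncard_of_injOn
    (fun f => (((fun i : Fin (n + 1) => f ((i : ℕ) : ZMod N)),
      (fun i : Fin (n' + 1) => f (-((i : ℕ) : ZMod N)))),
      f (((n : ℕ) : ZMod N) + 1) - f ((n : ℕ) : ZMod N))) ?_ ?_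
    ((forkP_fin n n').prod ((Set.finite_Icc _ _).prod (Set.finite_Icc _ _)))
  · rintro f ⟨⟨h0, hi, hs⟩, hp⟩
    refine ⟨⟨⟨⟨?_, ?_, ?_⟩, ?_⟩, ⟨⟨?_, ?_, ?_⟩, ?_⟩, ?_⟩, ?_⟩
    · simp [h0]
    · intro i j hij
      have := hi hij
      have e := congrArg ZMod.val this
      rw [hval _ (by omega), hval _ (by omega)] at e
      exact Fin.ext e
    · intro i
      have := hs ((i : ℕ) : ZMod N)
      simpa using this
    · intro i hi0
      refine hp _ (hNe _ (Nat.pos_of_ne_zero fun h => hi0 (Fin.ext h)) (by omega))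
    · simp [h0]
    · intro i j hij
      have := neg_injective (hi hij)
      have e := congrArg ZMod.val this
      rw [hval _ (by omega), hval _ (by omega)] at e
      exact Fin.ext e
    · intro i
      have := hs (-(((i : ℕ) : ZMod N) + 1))
      rw [neg_add, neg_add_cancel_right] at this
      simp only [Fin.val_succ, Fin.val_castSucc, Nat.cast_add, Nat.cast_one]
      rw [neg_add, abs_sub_comm, abs_sub_comm (f _).2]
      exact this
    · intro i hi0
      refine hp _ (neg_ne_zero.2 (hNe _ (Nat.pos_of_ne_zero fun h => hi0 (Fin.ext h)) (by omega)))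
    · apply Set.eq_singleton_iff_unique_mem.2
      refine ⟨⟨⟨0, by simp [h0]⟩, ⟨0, by simp [h0]⟩⟩, ?_⟩
      rintro z ⟨⟨i, rfl⟩, ⟨j, hj⟩⟩
      simp only at hj ⊢
      have e := hi hj
      have e2 : (((i : ℕ) + (j : ℕ) : ℕ) : ZMod N) = 0 := by
        push_cast
        rw [← e]
        ring
      by_contra hne
      have hij : 0 < (i : ℕ) + (j : ℕ) := by
        by_contra h
        have : (i : ℕ) = 0 := by omega
        rw [this, Nat.cast_zero, h0] at hne
        exact hne rfl
      exact hNe _ hij (by omega) e2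
    · have := hs ((n : ℕ) : ZMod N)
      have a1 := abs_nonneg ((f (((n : ℕ) : ZMod N) + 1)).1 - (f ((n : ℕ) : ZMod N)).1)
      have a2 := abs_nonneg ((f (((n : ℕ) : ZMod N) + 1)).2 - (f ((n : ℕ) : ZMod N)).2)
      have b1 : |(f (((n : ℕ) : ZMod N) + 1)).1 - (f ((n : ℕ) : ZMod N)).1| ≤ 1 := by linarith
      have b2 : |(f (((n : ℕ) : ZMod N) + 1)).2 - (f ((n : ℕ) : ZMod N)).2| ≤ 1 := by linarith
      exact ⟨abs_le.1 b1, abs_le.1 b2⟩
  · rintro f ⟨⟨h0, -, -⟩, -⟩ g ⟨⟨h0', -, -⟩, -⟩ hfg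
    simp only [Prod.mk.injEq] at hfg
    obtain ⟨⟨e1, e2⟩, e3⟩ := hfg
    have k1 : ∀ k : ℕ, k ≤ n → f (k : ZMod N) = g (k : ZMod N) := fun k hk =>
      congrFun e1 ⟨k, by omega⟩
    have k2 : ∀ k : ℕ, k ≤ n' → f (-(k : ZMod N)) = g (-(k : ZMod N)) := fun k hk =>
      congrFun e2 ⟨k, by omega⟩
    have k3 : f (((n : ℕ) : ZMod N) + 1) = g (((n : ℕ) : ZMod N) + 1) := by
      rw [k1 n le_rfl] at e3
      exact sub_left_inj.1 e3
    funext i
    have hiN := ZMod.val_lt i
    rcases Nat.lt_or_ge n i.val with h | h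
    · rcases Nat.lt_or_ge (n + 1) i.val with h' | h'
      · have e : i = -((N - i.val : ℕ) : ZMod N) := by
          rw [Nat.cast_sub hiN.le, ZMod.natCast_self, ZMod.natCast_zmod_val]
          ring
        rw [e]
        exact k2 _ (by omega)
      · have e : i = ((n : ℕ) : ZMod N) + 1 := by
          have : i.val = n + 1 := by omega
          rw [← ZMod.natCast_zmod_val i, this]
          push_cast
          rfl
        rw [e]
        exact k3
    · have e : i = (i.val : ZMod N) := (ZMod.natCast_zmod_val i).symm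
      rw [e]
      exact k1 _ h

end Pool.Agent.X135.Net
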