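import Pool.Agent.X135.SC.Net

/-! Small self-avoiding networks on the square lattice: the inequalities. -/

set_option autoImplicit false

namespace Pool.Agent.X135.Net

/-- tadpoles: a loop and a walk which meet at the origin only -/
def Tad (N n : ℕ) : Set ((ZMod N → Pt) × (Fin (n + 1) → Pt)) :=
  {q | q.1 ∈ Loop N ∧ q.2 ∈ Walk n ∧ Set.range q.1 ∩ Set.range q.2 = {0}}

/-- figure eights: two loops which meet at the origin only -/
def Eight (N N' : ℕ) : Set ((ZMod N → Pt) × (ZMod N' → Pt)) :=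
  {q | q.1 ∈ Loop N ∧ q.2 ∈ Loop N' ∧ Set.range q.1 ∩ Set.range q.2 = {0}}

/-- a loop and two walks, any two of which meet at the origin only -/
def Tails (N n n' : ℕ) : Set ((ZMod N → Pt) × (Fin (n + 1) → Pt) × (Fin (n' + 1) → Pt)) :=
  {q | q.1 ∈ Loop N ∧ q.2.1 ∈ Walk n ∧ q.2.2 ∈ Walk n' ∧
    Set.range q.1 ∩ Set.range q.2.1 = {0} ∧ Set.range q.1 ∩ Set.range q.2.2 = {0} ∧
    Set.range q.2.1 ∩ Set.range q.2.2 = {0}}

/-- three walks, any two of which meet at the origin only -/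
def Star3 (a b c : ℕ) : Set ((Fin (a + 1) → Pt) × (Fin (b + 1) → Pt) × (Fin (c + 1) → Pt)) :=
  {q | q.1 ∈ Walk a ∧ q.2.1 ∈ Walk b ∧ q.2.2 ∈ Walk c ∧
    Set.range q.1 ∩ Set.range q.2.1 = {0} ∧ Set.range q.1 ∩ Set.range q.2.2 = {0} ∧
    Set.range q.2.1 ∩ Set.range q.2.2 = {0}}

/-- four walks, any two of which meet at the origin only -/
def Star4 (a b c d : ℕ) :
    Set ((Fin (a + 1) → Pt) × (Fin (b + 1) → Pt) × (Fin (c + 1) → Pt) × (Fin (d + 1) → Pt)) :=
  {q | (q.1 ∈ Walk a ∧ q.2.1 ∈ Walk b ∧ q.2.2.1 ∈ Walk c ∧ q.2.2.2 ∈ Walk d) ∧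
    Set.range q.1 ∩ Set.range q.2.1 = {0} ∧ Set.range q.1 ∩ Set.range q.2.2.1 = {0} ∧
    Set.range q.1 ∩ Set.range q.2.2.2 = {0} ∧ Set.range q.2.1 ∩ Set.range q.2.2.1 = {0} ∧
    Set.range q.2.1 ∩ Set.range q.2.2.2 = {0} ∧ Set.range q.2.2.1 ∩ Set.range q.2.2.2 = {0}}

/-- dumbbells: two disjoint loops joined by a walk, which meets the first one at its starting point
(the origin) only and the second one at its end point only; the second loop is given by its
translate to the origin -/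
def Dumb (N n N' : ℕ) : Set ((ZMod N → Pt) × (Fin (n + 1) → Pt) × (ZMod N' → Pt)) :=
  {q | q.1 ∈ Loop N ∧ q.2.1 ∈ Walk n ∧ q.2.2 ∈ Loop N' ∧
    Set.range q.1 ∩ Set.range q.2.1 = {0} ∧
    Set.range q.2.1 ∩ Set.range (fun i => q.2.1 (Fin.last n) + q.2.2 i) = {q.2.1 (Fin.last n)} ∧
    Set.range q.1 ∩ Set.range (fun i => q.2.1 (Fin.last n) + q.2.2 i) = ∅}

/-- walks between their ends in the lexicographic order -/
def BrP (n : ℕ) : Set (Fin (n + 1) → Pt) :=
  {w | w ∈ WalkP n ∧ ∀ i, i ≠ Fin.last n → w (Fin.last n) - w i ∈ Pos}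

theorem brP_fin (n : ℕ) : (BrP n).Finite := (walkP_fin n).subset fun _ h => h.1

theorem walk_neg {n : ℕ} {w : Fin (n + 1) → Pt} (hw : w ∈ Walk n) : (fun i => -w i) ∈ Walk n := by
  obtain ⟨h0, hi, hs⟩ := hw
  refine ⟨by simp [h0], fun i j h => hi (neg_injective h), fun i => ?_⟩
  have := hs i
  simp only [Prod.fst_neg, Prod.snd_neg]
  rw [show -(w i.succ).1 - -(w i.castSucc).1 = -((w i.succ).1 - (w i.castSucc).1) by ring,
    show -(w i.succ).2 - -(w i.castSucc).2 = -((w i.succ).2 - (w i.castSucc).2) by ring,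
    abs_neg, abs_neg]
  exact this

theorem loop_neg {N : ℕ} {w : ZMod N → Pt} (hw : w ∈ Loop N) : (fun i => -w i) ∈ Loop N := by
  obtain ⟨h0, hi, hs⟩ := hw
  refine ⟨by simp [h0], fun i j h => hi (neg_injective h), fun i => ?_⟩
  have := hs i
  simp only [Prod.fst_neg, Prod.snd_neg]
  rw [show -(w (i + 1)).1 - -(w i).1 = -((w (i + 1)).1 - (w i).1) by ring,
    show -(w (i + 1)).2 - -(w i).2 = -((w (i + 1)).2 - (w i).2) by ring,
    abs_neg, abs_neg]
  exact this

/-- a positive and a negative object meet at the origin only -/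
theorem meet {ι κ : Type} {f : ι → Pt} {g : κ → Pt} {i₀ : ι} {j₀ : κ} (h0 : f i₀ = 0)
    (h0' : g j₀ = 0) (hf : ∀ i, i ≠ i₀ → f i ∈ Pos) (hg : ∀ j, j ≠ j₀ → g j ∈ Pos) :
    Set.range (fun i => -f i) ∩ Set.range g = {0} := by
  apply Set.eq_singleton_iff_unique_mem.2
  refine ⟨⟨⟨i₀, by simp [h0]⟩, ⟨j₀, h0'⟩⟩, ?_⟩
  rintro z ⟨⟨i, rfl⟩, ⟨j, hj⟩⟩
  by_cases hi : i = i₀
  · simp [hi, h0]
  · exfalso
    have h1 := hf i hi
    by_cases hj' : j = j₀
    · simp only at hj
      rw [hj', h0'] at hj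
      have : f i = 0 := by simpa using hj.symm
      rw [this] at h1
      exact zero_not_pos h1
    · have h2 := hg j hj'
      simp only at hj
      rw [hj] at h2
      exact pos_neg h1 h2

theorem neg_range_inter {ι κ : Type} {f : ι → Pt} {g : κ → Pt}
    (h : Set.range f ∩ Set.range g = {0}) :
    Set.range (fun i => -f i) ∩ Set.range (fun j => -g j) = {0} := by
  have h1 : (0 : Pt) ∈ Set.range f ∩ Set.range g := by rw [h]; rfl
  apply Set.eq_singleton_iff_unique_mem.2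
  refine ⟨?_, ?_⟩
  · obtain ⟨⟨i, hi⟩, ⟨j, hj⟩⟩ := h1
    exact ⟨⟨i, by simp [hi]⟩, ⟨j, by simp [hj]⟩⟩
  · rintro z ⟨⟨i, rfl⟩, ⟨j, hj⟩⟩
    have : f i ∈ Set.range f ∩ Set.range g := ⟨⟨i, rfl⟩, ⟨j, neg_injective hj⟩⟩
    rw [h] at this
    simp only [Set.mem_singleton_iff] at this
    simp [this]

theorem tad_ge (N n : ℕ) [NeZero N] :
    (LoopP N).ncard * (WalkP n).ncard ≤ (Tad N n).ncard := by
  rw [← Set.ncard_prod]
  refine Set.ncard_le_ncard_of_injOn (fun q => (fun i => -q.1 i, q.2)) ?_ ?_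
    (((loop_fin N).prod (walk_fin n)).subset fun _ h => ⟨h.1, h.2.1⟩)
  · rintro ⟨f, w⟩ ⟨hf, hw⟩
    exact ⟨loop_neg hf.1, hw.1, meet hf.1.1 hw.1.1 hf.2 hw.2⟩
  · rintro ⟨f, w⟩ - ⟨f', w'⟩ - h
    simp only [Prod.mk.injEq] at h
    exact Prod.ext (funext fun i => neg_injective (congrFun h.1 i)) h.2

theorem tad_le (N n : ℕ) [NeZero N] : (Tad N n).ncard ≤ (Loop N).ncard * (Walk n).ncard := by
  rw [← Set.ncard_prod]
  exact Set.ncard_le_ncard (fun _ h => ⟨h.1, h.2.1⟩) ((loop_fin N).prod (walk_fin n))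

theorem eight_ge (N N' : ℕ) [NeZero N] [NeZero N'] :
    (LoopP N).ncard * (LoopP N').ncard ≤ (Eight N N').ncard := by
  rw [← Set.ncard_prod]
  refine Set.ncard_le_ncard_of_injOn (fun q => (fun i => -q.1 i, q.2)) ?_ ?_
    (((loop_fin N).prod (loop_fin N')).subset fun _ h => ⟨h.1, h.2.1⟩)
  · rintro ⟨f, w⟩ ⟨hf, hw⟩
    exact ⟨loop_neg hf.1, hw.1, meet hf.1.1 hw.1.1 hf.2 hw.2⟩
  · rintro ⟨f, w⟩ - ⟨f', w'⟩ - h
    simp only [Prod.mk.injEq] at h
    exact Prod.ext (funext fun i => neg_injective (congrFun h.1 i)) h.2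

theorem eight_le (N N' : ℕ) [NeZero N] [NeZero N'] :
    (Eight N N').ncard ≤ (Loop N).ncard * (Loop N').ncard := by
  rw [← Set.ncard_prod]
  exact Set.ncard_le_ncard (fun _ h => ⟨h.1, h.2.1⟩) ((loop_fin N).prod (loop_fin N'))

theorem tails_ge (N n n' : ℕ) [NeZero N] :
    (LoopP N).ncard * (ForkP n n').ncard ≤ (Tails N n n').ncard := by
  rw [← Set.ncard_prod]
  refine Set.ncard_le_ncard_of_injOn (fun q => (fun i => -q.1 i, q.2.1, q.2.2)) ?_ ?_
    (((loop_fin N).prod ((walk_fin n).prod (walk_fin n'))).subset fun _ h =>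
      ⟨h.1, h.2.1, h.2.2.1⟩)
  · rintro ⟨f, u, v⟩ ⟨hf, hu, hv, huv⟩
    exact ⟨loop_neg hf.1, hu.1, hv.1, meet hf.1.1 hu.1.1 hf.2 hu.2,
      meet hf.1.1 hv.1.1 hf.2 hv.2, huv⟩
  · rintro ⟨f, u, v⟩ - ⟨f', u', v'⟩ - h
    simp only [Prod.mk.injEq] at h
    obtain ⟨h1, h2, h3⟩ := h
    have e : f = f' := funext fun i => neg_injective (congrFun h1 i)
    rw [e, h2, h3]

theorem tails_le (N n n' : ℕ) [NeZero N] :
    (Tails N n n').ncard ≤ (Loop N).ncard * ((Walk n).ncard * (Walk n').ncard) := by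
  rw [← Set.ncard_prod, ← Set.ncard_prod]
  exact Set.ncard_le_ncard (fun _ h => ⟨h.1, h.2.1, h.2.2.1⟩)
    ((loop_fin N).prod ((walk_fin n).prod (walk_fin n')))

theorem star3_ge (a b c : ℕ) :
    (WalkP a).ncard * (ForkP b c).ncard ≤ (Star3 a b c).ncard := by
  rw [← Set.ncard_prod]
  refine Set.ncard_le_ncard_of_injOn (fun q => (fun i => -q.1 i, q.2.1, q.2.2)) ?_ ?_
    (((walk_fin a).prod ((walk_fin b).prod (walk_fin c))).subset fun _ h =>
      ⟨h.1, h.2.1, h.2.2.1⟩)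
  · rintro ⟨f, u, v⟩ ⟨hf, hu, hv, huv⟩
    exact ⟨walk_neg hf.1, hu.1, hv.1, meet hf.1.1 hu.1.1 hf.2 hu.2,
      meet hf.1.1 hv.1.1 hf.2 hv.2, huv⟩
  · rintro ⟨f, u, v⟩ - ⟨f', u', v'⟩ - h
    simp only [Prod.mk.injEq] at h
    obtain ⟨h1, h2, h3⟩ := h
    have e : f = f' := funext fun i => neg_injective (congrFun h1 i)
    rw [e, h2, h3]

theorem star3_le (a b c : ℕ) :
    (Star3 a b c).ncard ≤ (Walk a).ncard * ((Walk b).ncard * (Walk c).ncard) := by
  rw [← Set.ncard_prod, ← Set.ncard_prod]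
  exact Set.ncard_le_ncard (fun _ h => ⟨h.1, h.2.1, h.2.2.1⟩)
    ((walk_fin a).prod ((walk_fin b).prod (walk_fin c)))

theorem star4_ge (a b c d : ℕ) :
    (ForkP a b).ncard * (ForkP c d).ncard ≤ (Star4 a b c d).ncard := by
  rw [← Set.ncard_prod]
  refine Set.ncard_le_ncard_of_injOn
    (fun q => (fun i => -q.1.1 i, fun i => -q.1.2 i, q.2.1, q.2.2)) ?_ ?_
    (((walk_fin a).prod ((walk_fin b).prod ((walk_fin c).prod (walk_fin d)))).subset fun _ h =>
      ⟨h.1.1, h.1.2.1, h.1.2.2.1, h.1.2.2.2⟩)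
  · rintro ⟨⟨s, t⟩, u, v⟩ ⟨⟨hs, ht, hst⟩, hu, hv, huv⟩
    exact ⟨⟨walk_neg hs.1, walk_neg ht.1, hu.1, hv.1⟩, neg_range_inter hst,
      meet hs.1.1 hu.1.1 hs.2 hu.2, meet hs.1.1 hv.1.1 hs.2 hv.2,
      meet ht.1.1 hu.1.1 ht.2 hu.2, meet ht.1.1 hv.1.1 ht.2 hv.2, huv⟩
  · rintro ⟨⟨s, t⟩, u, v⟩ - ⟨⟨s', t'⟩, u', v'⟩ - h
    simp only [Prod.mk.injEq] at h
    obtain ⟨h1, h1', h2, h3⟩ := h
    have e : s = s' := funext fun i => neg_injective (congrFun h1 i)
    have e' : t = t' := funext fun i => neg_injective (congrFun h1' i)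
    rw [e, e', h2, h3]

theorem star4_le (a b c d : ℕ) :
    (Star4 a b c d).ncard ≤
      (Walk a).ncard * ((Walk b).ncard * ((Walk c).ncard * (Walk d).ncard)) := by
  rw [← Set.ncard_prod, ← Set.ncard_prod, ← Set.ncard_prod]
  exact Set.ncard_le_ncard (fun _ h => ⟨h.1.1, h.1.2.1, h.1.2.2.1, h.1.2.2.2⟩)
    ((walk_fin a).prod ((walk_fin b).prod ((walk_fin c).prod (walk_fin d))))

theorem dumb_ge (N n N' : ℕ) (hn : 1 ≤ n) [NeZero N] [NeZero N'] :
    (LoopP N).ncard * ((BrP n).ncard * (LoopP N').ncard) ≤ (Dumb N n N').ncard := by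
  rw [← Set.ncard_prod, ← Set.ncard_prod]
  refine Set.ncard_le_ncard_of_injOn (fun q => (fun i => -q.1 i, q.2.1, q.2.2)) ?_ ?_
    (((loop_fin N).prod ((walk_fin n).prod (loop_fin N'))).subset fun _ h =>
      ⟨h.1, h.2.1, h.2.2.1⟩)
  · rintro ⟨f, w, g⟩ ⟨hf, ⟨hw, hw'⟩, hg⟩
    have hf : f ∈ LoopP N := hf
    have hg : g ∈ LoopP N' := hg
    have hw : w ∈ WalkP n := hw
    have hw' : ∀ i, i ≠ Fin.last n → w (Fin.last n) - w i ∈ Pos := hw'
    have hl : w (Fin.last n) ∈ Pos := hw.2 _ (by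
      rw [Ne, Fin.ext_iff]
      simp
      omega)
    refine ⟨loop_neg hf.1, hw.1, hg.1, meet hf.1.1 hw.1.1 hf.2 hw.2, ?_, ?_⟩
    · apply Set.eq_singleton_iff_unique_mem.2
      refine ⟨⟨⟨_, rfl⟩, ⟨0, by simp [hg.1.1]⟩⟩, ?_⟩
      rintro z ⟨⟨i, rfl⟩, ⟨j, hj⟩⟩
      simp only at hj ⊢
      by_cases hj0 : j = 0
      · rw [hj0, hg.1.1, add_zero] at hj
        exact hj.symm
      · exfalso
        have h1 := hg.2 j hj0
        by_cases hi : i = Fin.last n
        · rw [hi] at hj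
          have : g j = 0 := by simpa using hj
          rw [this] at h1
          exact zero_not_pos h1
        · have h2 := hw' i hi
          rw [← hj, sub_add_cancel_left] at h2
          exact pos_neg h1 h2
    · rw [Set.eq_empty_iff_forall_notMem]
      rintro z ⟨⟨i, rfl⟩, ⟨j, hj⟩⟩
      simp only at hj
      have h1 : w (Fin.last n) + g j ∈ Pos := by
        by_cases hj0 : j = 0
        · rw [hj0, hg.1.1, add_zero]
          exact hl
        · exact pos_add hl (hg.2 j hj0)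
      rw [hj] at h1
      by_cases hi : i = 0
      · rw [hi, hf.1.1, neg_zero] at h1
        exact zero_not_pos h1
      · exact pos_neg (hf.2 i hi) h1
  · rintro ⟨f, u, v⟩ - ⟨f', u', v'⟩ - h
    simp only [Prod.mk.injEq] at h
    obtain ⟨h1, h2, h3⟩ := h
    have e : f = f' := funext fun i => neg_injective (congrFun h1 i)
    rw [e, h2, h3]

theorem dumb_le (N n N' : ℕ) [NeZero N] [NeZero N'] :
    (Dumb N n N').ncard ≤ (Loop N).ncard * ((Walk n).ncard * (Loop N').ncard) := by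
  rw [← Set.ncard_prod, ← Set.ncard_prod]
  exact Set.ncard_le_ncard (fun _ h => ⟨h.1, h.2.1, h.2.2.1⟩)
    ((loop_fin N).prod ((walk_fin n).prod (loop_fin N')))

/-! ### bridges -/

/-- the number of bridges -/
noncomputable def Br (n : ℕ) : ℕ := Nat.card {w : Fin (n + 1) → Pt // (w 0 = (0, 0) ∧
  (∀ i : Fin n, |(w i.succ).1 - (w i.castSucc).1| + |(w i.succ).2 - (w i.castSucc).2| = 1) ∧
  Function.Injective w) ∧ ∀ i : Fin (n + 1), i ≠ 0 → 0 < (w i).1 ∧ (w i).1 ≤ (w (Fin.last n)).1}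

/-- append an East step to a walk -/
def app {n : ℕ} (w : Fin (n + 1) → Pt) : Fin (n + 2) → Pt :=
  Fin.snoc (α := fun _ => Pt) w (w (Fin.last n) + (1, 0))

theorem app_castSucc {n : ℕ} (w : Fin (n + 1) → Pt) (i : Fin (n + 1)) :
    app w i.castSucc = w i := by simp [app]

theorem app_last {n : ℕ} (w : Fin (n + 1) → Pt) :
    app w (Fin.last (n + 1)) = w (Fin.last n) + (1, 0) := by simp [app]

theorem br_le_walkP (n : ℕ) : Br n ≤ (WalkP n).ncard := by
  unfold Br
  rw [← Set.coe_ofPred, Nat.card_coe_set_eq]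
  refine Set.ncard_le_ncard (fun w hw => ?_) (walkP_fin n)
  exact ⟨⟨hw.1.1, hw.1.2.2, hw.1.2.1⟩, fun i hi => Or.inl (hw.2 i hi).1⟩

theorem br_le_brP (n : ℕ) : Br n ≤ (BrP (n + 1)).ncard := by
  unfold Br
  rw [← Set.coe_ofPred, Nat.card_coe_set_eq]
  refine Set.ncard_le_ncard_of_injOn app ?_ ?_ (brP_fin (n + 1))
  · rintro w ⟨⟨h0, hs, hi⟩, hb⟩
    have hb' : ∀ i, (w i).1 ≤ (w (Fin.last n)).1 := by
      intro i
      by_cases h : i = 0
      · by_cases hl : Fin.last n = 0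
        · rw [h, hl]
        · rw [h, h0]
          exact (hb _ hl).1.le
      · exact (hb i h).2
    refine ⟨⟨⟨?_, ?_, ?_⟩, ?_⟩, ?_⟩
    · have : (0 : Fin (n + 2)) = (0 : Fin (n + 1)).castSucc := rfl
      rw [this, app_castSucc, h0]
      rfl
    · intro i j hij
      induction i using Fin.lastCases with
      | last =>
        induction j using Fin.lastCases with
        | last => rfl
        | cast j =>
          rw [app_last, app_castSucc] at hij
          have := congrArg Prod.fst hij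
          simp only [Prod.fst_add] at this
          have := hb' j
          omega
      | cast i =>
        induction j using Fin.lastCases with
        | last =>
          rw [app_last, app_castSucc] at hij
          have := congrArg Prod.fst hij
          simp only [Prod.fst_add] at this
          have := hb' i
          omega
        | cast j =>
          rw [app_castSucc, app_castSucc] at hij
          rw [hi hij]
    · intro i
      induction i using Fin.lastCases with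
      | last =>
        rw [Fin.succ_last, app_last, app_castSucc]
        simp
      | cast i =>
        rw [← Fin.castSucc_succ, app_castSucc, app_castSucc]
        exact hs i
    · intro i hi0
      induction i using Fin.lastCases with
      | last =>
        rw [app_last]
        left
        have := hb' 0
        rw [h0] at this
        simp only [Prod.fst_add]
        simp only at this
        omega
      | cast i =>
        rw [app_castSucc]
        left
        refine (hb i ?_).1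
        rintro rfl
        exact hi0 rfl
    · intro i hil
      rw [app_last]
      left
      induction i using Fin.lastCases with
      | last => exact absurd rfl hil
      | cast i =>
        rw [app_castSucc]
        have := hb' i
        simp only [Prod.fst_sub, Prod.fst_add]
        omega
  · intro w _ w' _ h
    funext i
    have := congrFun h i.castSucc
    rwa [app_castSucc, app_castSucc] at this

end Pool.Agent.X135.Net
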