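import Pool.Agent.X135.SC.Net2
import Pool.Agent.TH508.LT.Fin2

/-! Small self-avoiding networks on the square lattice: the numbers of the pieces. -/

set_option autoImplicit false

namespace Pool.Agent.X135.Net

open Real

theorem walk_ncard (n : ℕ) : ((Walk n).ncard : ℝ) = H981.cr' n := by
  rw [H981.cr'_eq, ← Nat.card_coe_set_eq]
  unfold H981.C H981.IsSAW Walk
  congr 1
  apply Nat.card_congr
  apply Equiv.subtypeEquivRight
  intro f
  constructor
  · rintro ⟨h0, h1, h2⟩
    exact ⟨h0, h2, h1⟩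
  · rintro ⟨h0, h2, h1⟩
    exact ⟨h0, h1, h2⟩

theorem br_ncard (n : ℕ) : (Br n : ℝ) = H981.br' n := by
  rw [H981.br'_eq]
  rfl

theorem loop_ncard {m : ℕ} (hm : 1 ≤ m) :
    ((Loop (2 * m)).ncard : ℝ) = 4 * m * H981.PP m := by
  have hm' : (0 : ℝ) < m := by exact_mod_cast hm
  have h : H981.PP m = ((Loop (2 * m)).ncard : ℝ) / (4 * m) := by
    rw [← Nat.card_coe_set_eq]
    rfl
  rw [h]
  field_simp

theorem one_le_walkP (n : ℕ) : 1 ≤ (WalkP n).ncard := by
  refine (Set.ncard_pos (walkP_fin n)).2 ⟨fun i => ((i : ℕ), 0), ⟨by rfl, fun i j h => ?_, fun i => by simp⟩, fun i hi => ?_⟩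
  · have := congrArg Prod.fst h
    simp only [Nat.cast_inj] at this
    exact Fin.ext this
  · left
    have : (i : ℕ) ≠ 0 := fun h => hi (Fin.ext h)
    simp only
    omega

theorem one_le_brP (n : ℕ) : 1 ≤ (BrP n).ncard := by
  refine (Set.ncard_pos (brP_fin n)).2 ⟨fun i => ((i : ℕ), 0), ⟨⟨by rfl, fun i j h => ?_, fun i => by simp⟩, fun i hi => ?_⟩,
    fun i hi => ?_⟩
  · have := congrArg Prod.fst h
    simp only [Nat.cast_inj] at this
    exact Fin.ext this
  · left
    have : (i : ℕ) ≠ 0 := fun h => hi (Fin.ext h)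
    simp only
    omega
  · left
    have : (i : ℕ) ≠ n := fun h => hi (Fin.ext h)
    have := i.isLt
    simp only [Prod.fst_sub, Fin.val_last]
    omega

/-- comparison of exponential factors: small lengths -/
theorem absorb {A K L : ℝ} (hK : A / log 2 ^ 2 ≤ K) (hA : 0 ≤ A) (hL : log 2 ≤ L) :
    A ≤ K * L ^ 2 := by
  have h2 : 0 < log 2 := log_pos (by norm_num)
  have h3 : log 2 ^ 2 ≤ L ^ 2 := pow_le_pow_left₀ h2.le hL 2
  have hK0 : 0 ≤ K := le_trans (by positivity) hK
  rw [div_le_iff₀ (by positivity)] at hK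
  exact hK.trans (mul_le_mul_of_nonneg_left h3 hK0)

theorem bounds : ∃ K : ℝ, 0 ≤ K ∧ ∀ T : ℕ, 2 ≤ T →
    (∀ n, n ≤ T → ((Walk n).ncard : ℝ) ≤ H981.mu ^ n * exp (K * log T ^ 2)) ∧
    (∀ n, n ≤ T → H981.mu ^ n * exp (-(K * log T ^ 2)) ≤ (WalkP n).ncard) ∧
    (∀ n, n ≤ T → H981.mu ^ n * exp (-(K * log T ^ 2)) ≤ (BrP n).ncard) ∧
    (∀ N, Even N → 4 ≤ N → N ≤ T → ((Loop N).ncard : ℝ) ≤ H981.mu ^ N * exp (K * log T ^ 2)) ∧
    (∀ N, Even N → 4 ≤ N → N ≤ T → H981.mu ^ N * exp (-(K * log T ^ 2)) ≤ (LoopP N).ncard) ∧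
    (∀ n n', 2 ≤ n + n' → n + n' ≤ T →
      H981.mu ^ (n + n') * exp (-(K * log T ^ 2)) ≤ (ForkP n n').ncard) := by
  obtain ⟨K₁, hK₁, h1⟩ := Pool.Agent.TH508.LT.sq_upper2
  obtain ⟨K₂, hK₂, h2⟩ := Pool.Agent.TH508.LT.sq_lower2
  obtain ⟨K₃, hK₃, h3⟩ := Pool.Agent.TH508.LT.sq_PP2
  have hμ := H981.mu_pos
  have hμ1 := H981.one_le_mu
  have hlμ : 0 ≤ log H981.mu := log_nonneg hμ1
  have hl2 : 0 < log 2 := log_pos (by norm_num)
  have hl4 : 0 ≤ log 4 := log_nonneg (by norm_num)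
  have hl9 : 0 ≤ log 9 := log_nonneg (by norm_num)
  have hc0 := H981.one_le_cr' 0
  have hc1 := H981.one_le_cr' 1
  set c01 : ℝ := H981.cr' 0 * H981.cr' 1 with hc01
  have hc : 1 ≤ c01 := one_le_mul_of_one_le_of_one_le hc0 hc1
  have hlc : 0 ≤ log c01 := log_nonneg hc
  set A : ℝ := 4 * log H981.mu + log 4 + log 9 + log c01 with hA
  have hA0 : 0 ≤ A := by positivity
  set K : ℝ := K₁ + K₂ + 4 * K₃ + A / log 2 ^ 2 + 4 / log 2 with hK
  have hK0 : 0 ≤ K := by positivity
  refine ⟨K, hK0, fun T hT => ?_⟩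
  have hTr : (2 : ℝ) ≤ T := by exact_mod_cast hT
  set L : ℝ := log T with hL
  have hL2 : log 2 ≤ L := log_le_log (by norm_num) hTr
  have hL0 : 0 ≤ L := hl2.le.trans hL2
  have hAL : A ≤ A / log 2 ^ 2 * L ^ 2 := absorb le_rfl hA0 hL2
  have hLL : L ≤ 1 / log 2 * L ^ 2 := by
    rw [div_mul_eq_mul_div, one_mul, le_div_iff₀ hl2, sq]
    exact mul_le_mul_of_nonneg_left hL2 hL0
  have hlog : ∀ n : ℕ, 1 ≤ n → n ≤ T → log n ^ 2 ≤ L ^ 2 := by
    intro n hn hnT
    exact pow_le_pow_left₀ (log_natCast_nonneg n)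
      (log_le_log (by exact_mod_cast hn) (by exact_mod_cast hnT)) 2
  have hexpK : ∀ a : ℝ, a ≤ K * L ^ 2 → exp (-(K * L ^ 2)) ≤ exp (-a) := fun a ha =>
    exp_le_exp.2 (neg_le_neg ha)
  have hp1 : 0 ≤ K₁ * L ^ 2 := by positivity
  have hp2 : 0 ≤ K₂ * L ^ 2 := by positivity
  have hp3 : 0 ≤ K₃ * L ^ 2 := by positivity
  have hp4 : 0 ≤ 4 / log 2 * L ^ 2 := by positivity
  have hKL : K * L ^ 2 = K₁ * L ^ 2 + K₂ * L ^ 2 + 4 * (K₃ * L ^ 2) + A / log 2 ^ 2 * L ^ 2 +
      4 / log 2 * L ^ 2 := by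
    rw [hK]
    ring
  have small : ∀ n : ℕ, n ≤ 2 → H981.mu ^ n * exp (-(K * L ^ 2)) ≤ 1 := by
    intro n hn
    have e : H981.mu ^ n ≤ exp (2 * log H981.mu) := by
      calc H981.mu ^ n ≤ H981.mu ^ 2 := pow_le_pow_right₀ hμ1 hn
        _ = exp (2 * log H981.mu) := by
          rw [two_mul, exp_add, exp_log hμ, sq]
    calc H981.mu ^ n * exp (-(K * L ^ 2)) ≤ exp (2 * log H981.mu) * exp (-(2 * log H981.mu)) := by
          refine mul_le_mul e (hexpK _ ?_) (exp_pos _).le (exp_pos _).le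
          rw [hKL]
          linarith
      _ = 1 := by rw [← exp_add, add_neg_cancel, exp_zero]
  have hbr : ∀ n : ℕ, 2 ≤ n → n ≤ T → H981.mu ^ n * exp (-(K₂ * L ^ 2)) ≤ Br n := by
    intro n hn hnT
    rw [br_ncard]
    refine le_trans ?_ (h2 n hn)
    refine mul_le_mul_of_nonneg_left (exp_le_exp.2 (neg_le_neg ?_)) (by positivity)
    exact mul_le_mul_of_nonneg_left (hlog n (by omega) hnT) hK₂
  have hloopP : ∀ N, Even N → 4 ≤ N → N ≤ T + 2 →
      H981.mu ^ N * exp (-(K₃ * (4 * L ^ 2))) ≤ (LoopP N).ncard := by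
    intro N hN h4 hNT
    obtain ⟨m, rfl⟩ := hN
    rw [← two_mul] at *
    have : NeZero (2 * m) := ⟨by omega⟩
    have hm : (0 : ℝ) < m := by exact_mod_cast (show 0 < m by omega)
    have e1 : (Loop (2 * m)).ncard ≤ 2 * m * (LoopP (2 * m)).ncard := loop_le
    have e2 : ((Loop (2 * m)).ncard : ℝ) ≤ 2 * m * (LoopP (2 * m)).ncard := by exact_mod_cast e1
    rw [loop_ncard (by omega)] at e2
    have e3 : 2 * H981.PP m ≤ (LoopP (2 * m)).ncard := by
      have : (2 * (m : ℝ)) * (2 * H981.PP m) ≤ (2 * m) * ((LoopP (2 * m)).ncard : ℝ) := by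
        linarith
      exact le_of_mul_le_mul_left this (by positivity)
    have e4 := (h3 m (by omega)).1
    have e5 : 0 < H981.mu ^ (2 * m) * exp (-(K₃ * log m ^ 2)) := by positivity
    have hlm : log m ≤ 2 * L := by
      have : (m : ℝ) ≤ (T : ℝ) ^ 2 := by
        have : m ≤ T ^ 2 := by nlinarith
        exact_mod_cast this
      calc log m ≤ log ((T : ℝ) ^ 2) := log_le_log hm this
        _ = 2 * L := by rw [log_pow, hL]; norm_num
    have e6 : log m ^ 2 ≤ 4 * L ^ 2 := by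
      calc log m ^ 2 ≤ (2 * L) ^ 2 := pow_le_pow_left₀ (log_natCast_nonneg m) hlm 2
        _ = _ := by ring
    calc H981.mu ^ (2 * m) * exp (-(K₃ * (4 * L ^ 2)))
        ≤ H981.mu ^ (2 * m) * exp (-(K₃ * log m ^ 2)) := by
          refine mul_le_mul_of_nonneg_left (exp_le_exp.2 (neg_le_neg ?_)) (by positivity)
          exact mul_le_mul_of_nonneg_left e6 hK₃
      _ ≤ _ := by linarith
  refine ⟨?_, ?_, ?_, ?_, ?_, ?_⟩
  · intro n hnT
    rw [walk_ncard]
    rcases Nat.lt_or_ge n 2 with hn | hn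
    · have e : H981.cr' n ≤ c01 := by
        interval_cases n
        · exact le_mul_of_one_le_right (by linarith) hc1
        · exact le_mul_of_one_le_left (by linarith) hc0
      calc H981.cr' n ≤ c01 := e
        _ ≤ 1 * exp (K * L ^ 2) := by
          rw [one_mul, ← exp_log (show (0 : ℝ) < c01 by linarith)]
          apply exp_le_exp.2
          rw [hKL]
          linarith
        _ ≤ _ := mul_le_mul_of_nonneg_right (one_le_pow₀ hμ1) (exp_pos _).le
    · refine (h1 n hn).trans (mul_le_mul_of_nonneg_left (exp_le_exp.2 ?_) (by positivity))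
      have := mul_le_mul_of_nonneg_left (hlog n (by omega) hnT) hK₁
      rw [hKL]
      linarith
  · intro n hnT
    rcases Nat.lt_or_ge n 2 with hn | hn
    · refine (small n hn.le).trans ?_
      exact_mod_cast one_le_walkP n
    · refine le_trans ?_ ((hbr n hn hnT).trans (by exact_mod_cast br_le_walkP n))
      refine mul_le_mul_of_nonneg_left (exp_le_exp.2 (neg_le_neg ?_)) (by positivity)
      rw [hKL]
      linarith
  · intro n hnT
    rcases Nat.lt_or_ge n 3 with hn | hn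
    · refine (small n (by omega)).trans ?_
      exact_mod_cast one_le_brP n
    · obtain ⟨k, rfl⟩ : ∃ k, n = k + 1 := ⟨n - 1, by omega⟩
      refine le_trans ?_ ((hbr k (by omega) (by omega)).trans (by exact_mod_cast br_le_brP k))
      have e : H981.mu ^ (k + 1) = H981.mu ^ k * exp (log H981.mu) := by rw [exp_log hμ, pow_succ]
      rw [e, mul_assoc, ← exp_add]
      refine mul_le_mul_of_nonneg_left (exp_le_exp.2 ?_) (by positivity)
      rw [hKL]
      linarith
  · intro N hN h4 hNT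
    obtain ⟨m, rfl⟩ := hN
    rw [← two_mul] at *
    rw [loop_ncard (by omega)]
    have hm : (0 : ℝ) < m := by exact_mod_cast (show 0 < m by omega)
    have e4 := (h3 m (by omega)).2
    have e5 : (m : ℝ) ≤ exp L := by
      rw [hL, exp_log (by linarith)]
      exact_mod_cast (show m ≤ T by omega)
    have e6 : (4 : ℝ) = exp (log 4) := (exp_log (by norm_num)).symm
    calc 4 * (m : ℝ) * H981.PP m
        ≤ (exp (log 4) * exp L) * (H981.mu ^ (2 * m) * exp (K₃ * L ^ 2)) := by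
          refine mul_le_mul ?_ (e4.trans ?_) ?_ (by positivity)
          · rw [← e6]
            exact mul_le_mul_of_nonneg_left e5 (by norm_num)
          · refine mul_le_mul_of_nonneg_left (exp_le_exp.2 ?_) (by positivity)
            exact mul_le_mul_of_nonneg_left (hlog m (by omega) (by omega)) hK₃
          · exact le_trans (by positivity) (h3 m (by omega)).1
      _ = H981.mu ^ (2 * m) * exp (log 4 + L + K₃ * L ^ 2) := by
          rw [exp_add, exp_add]
          ring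
      _ ≤ _ := by
          refine mul_le_mul_of_nonneg_left (exp_le_exp.2 ?_) (by positivity)
          have : L ≤ 4 / log 2 * L ^ 2 := by
            have : 1 / log 2 * L ^ 2 ≤ 4 / log 2 * L ^ 2 := by gcongr; norm_num
            linarith
          rw [hKL]
          linarith
  · intro N hN h4 hNT
    refine le_trans ?_ (hloopP N hN h4 (by omega))
    refine mul_le_mul_of_nonneg_left (exp_le_exp.2 (neg_le_neg ?_)) (by positivity)
    rw [hKL]
    linarith
  · intro n n' hn hnT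
    set M : ℕ := (n + n' + 2) / 2 with hM
    have hM1 : n + n' + 1 ≤ 2 * M := by omega
    have hM2 : 2 * M ≤ n + n' + 2 := by omega
    have : NeZero (2 * M) := ⟨by omega⟩
    have e1 := hloopP (2 * M) (even_two_mul M) (by omega) (by omega)
    have e2 : ((LoopP (2 * M)).ncard : ℝ) ≤ 9 * (ForkP n n').ncard := by
      exact_mod_cast fork_le hM1 hM2
    have e3 : H981.mu ^ (n + n') ≤ H981.mu ^ (2 * M) := pow_le_pow_right₀ hμ1 (by omega)
    have e9 : (9 : ℝ) = exp (log 9) := (exp_log (by norm_num)).symm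
    have e4 : H981.mu ^ (n + n') * exp (-(K₃ * (4 * L ^ 2))) ≤ exp (log 9) * (ForkP n n').ncard := by
      rw [← e9]
      exact (mul_le_mul_of_nonneg_right e3 (exp_pos _).le).trans (e1.trans e2)
    have e5 : exp (-log 9) * (exp (log 9) * (ForkP n n').ncard) = (ForkP n n').ncard := by
      rw [← mul_assoc, ← exp_add, neg_add_cancel, exp_zero, one_mul]
    rw [← e5]
    refine le_trans ?_ (mul_le_mul_of_nonneg_left e4 (exp_pos _).le)
    rw [mul_left_comm, ← exp_add]
    refine mul_le_mul_of_nonneg_left (exp_le_exp.2 ?_) (by positivity)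
    rw [hKL]
    linarith

end Pool.Agent.X135.Net
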